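import Pool.Agent.Helper95.CRY.SSim
import Pool.Agent.Helper95.ISO.Four

/-!
# A crystalline Tate class over a finite field is algebraic if and only if its isogenies repeat

`M`, `M'` are motives over a finite field `k` of characteristic `p`, with integral structures: lattices
`T`, `T'` in their crystalline realizations, which are modules over the ring `W` of Witt vectors of `k`,
stable under the crystalline Frobenius. Let `φ : T → T'` be a `W`-linear map which commutes with the
Frobenius: an (integral) Tate class of `Hom(M, M')`. The main example is `M = 𝟙(-i)`, `M' = h^{2i}(X)`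
for a smooth proper variety `X` over `k`: then `T = W` with the Frobenius `p ^ i σ`, `T'` is
`H^{2i}_crys(X / W)` modulo torsion, and `φ` is a class `x` of `T'` with `Fr_p x = p ^ i x`; it is
algebraic, i.e. a `ℚ_p`-combination of elements of `Hom(M, M')`, if and only if `x` is a
`ℚ_p`-combination of classes of cycles of codimension `i`.

For every `n` the lattice `N_n = {(x, y) ∈ T ⊕ T' : y ≡ φ x mod p ^ n}` is an `F`-crystal, an integral
structure of the motive `M ⊕ M'`: we get a sequence of motives with integral structures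
`N_0 = M ⊕ M'`, `N_1`, `N_2`, ..., isogenous to each other. Suppose that the algebra `End(M ⊕ M')` is
semisimple. There is a constant `C` which depends on `M`, `M'` and their integral structures but not on
`φ`, such that:

* if `φ` is algebraic then all the `N_n` are isomorphic to `M ⊕ M'`;
* if `φ` is not algebraic, let `d` be the largest integer such that `φ` is congruent to an algebraic
  class modulo `p ^ d`. Then `N_0, ..., N_d` are isomorphic, and the `N_n`, `n ≥ d + C`, are pairwise not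
  isomorphic.

Consequently the conjecture for `Hom(M, M')` in its `K`-linear form (`K` the fraction field of `W`: every
`K`-linear map of the realizations which commutes with the `K`-linear Frobenius is a `K`-combination of
elements of `Hom(M, M')`; for `M = 𝟙(-i)`, `M' = h^{2i}(X)` this is the surjectivity of the `K`-linear
cycle class map of `X` in codimension `i`) holds if and only if for every integral Tate class `φ` and
every `n₀` there are `m > n ≥ n₀` with `N_n ≅ N_m`.
-/

open Matrix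

namespace Pool.Agent.Results.MP_60ec62_ag.CrystalDichotomy

/-- An `F`-crystal over `k`: a free `ℤ_p`-module `T` of finite rank, with a basis `κ`, with an action of
the Witt vectors of `k` and an injective Frobenius-linear endomorphism. As `k` is finite, these are the
`W(k)`-lattices with a Frobenius, viewed as `ℤ_p`-lattices with operators. -/
structure Crystal (p : ℕ) [Fact p.Prime] (k κ : Type) [Field k] [CharP k p] [Fintype κ]
    [DecidableEq κ] where
  /-- multiplication by the Witt vectors -/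
  witt : WittVector p k →+* Matrix κ κ ℚ_[p]
  /-- the crystalline Frobenius -/
  frob : Matrix κ κ ℚ_[p]
  /-- the lattice is stable under the Witt vectors -/
  witt_integral : ∀ x i j, ‖witt x i j‖ ≤ 1
  /-- the lattice is stable under the Frobenius -/
  frob_integral : ∀ i j, ‖frob i j‖ ≤ 1
  /-- the Frobenius is injective -/
  frob_injective : frob.det ≠ 0
  /-- the Frobenius is semilinear -/
  semilinear : ∀ x, frob * witt x = witt (WittVector.frobenius x) * frob

/-- The crystalline realizations of two motives `M`, `M'` with integral structures, in bases `κ`, `κ'`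
of the lattices over `ℤ_p`, and of the algebra `A = End(M ⊕ M')`. -/
structure Realization (p : ℕ) [Fact p.Prime] (k A κ κ' : Type) [Field k] [CharP k p] [Ring A]
    [Fintype κ] [DecidableEq κ] [Fintype κ'] [DecidableEq κ'] where
  /-- the realization of `M` -/
  fst : Crystal p k κ
  /-- the realization of `M'` -/
  snd : Crystal p k κ'
  /-- the realization of the endomorphisms of `M ⊕ M'` -/
  real : A →+* Matrix (κ ⊕ κ') (κ ⊕ κ') ℚ_[p]
  /-- it is injective -/
  injective : Function.Injective real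
  /-- endomorphisms are linear over the Witt vectors -/
  linear : ∀ a x, real a * fromBlocks (fst.witt x) 0 0 (snd.witt x) =
    fromBlocks (fst.witt x) 0 0 (snd.witt x) * real a
  /-- endomorphisms commute with the Frobenius -/
  equivariant : ∀ a, real a * fromBlocks fst.frob 0 0 snd.frob =
    fromBlocks fst.frob 0 0 snd.frob * real a
  /-- the projection to `M` is an endomorphism of `M ⊕ M'` -/
  projection : ∃ e, real e = fromBlocks 1 0 0 0

variable {p : ℕ} [Fact p.Prime] {k A κ κ' : Type} [Field k] [CharP k p] [Ring A] [Fintype κ]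
  [DecidableEq κ] [Fintype κ'] [DecidableEq κ']

/-- The algebraic classes: the image of `Hom(M, M') ⊗ ℚ_p`. The elements of `Hom(M, M')` are the
endomorphisms of `M ⊕ M'` whose matrix has only the block from `M` to `M'`. -/
noncomputable def Realization.algebraic (R : Realization p k A κ κ') :
    Submodule ℚ_[p] (Matrix κ' κ ℚ_[p]) :=
  Submodule.span ℚ_[p] {ψ | ∃ a : A, R.real a = fromBlocks 0 0 ψ 0}

/-- The image of `Hom(M, M') ⊗ K`. -/
noncomputable def Realization.linearAlgebraic (R : Realization p k A κ κ') :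
    Submodule ℚ_[p] (Matrix κ' κ ℚ_[p]) :=
  Submodule.span ℚ_[p] {Y | ∃ x ψ, (∃ a : A, R.real a = fromBlocks 0 0 ψ 0) ∧
    Y = R.snd.witt x * ψ}

/-- The `K`-linear form of the crystalline Tate conjecture for `Hom(M, M')`, where `k` has `p ^ r`
elements, so that the `r`-th power of the Frobenius is `K`-linear. -/
def Realization.LinearTate (R : Realization p k A κ κ') (r : ℕ) : Prop :=
  ∀ X : Matrix κ' κ ℚ_[p], (∀ x, X * R.fst.witt x = R.snd.witt x * X) →
    X * R.fst.frob ^ r = R.snd.frob ^ r * X → X ∈ R.linearAlgebraic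

/-- An integral Tate class: a map from the lattice of `M` to the lattice of `M'` which is linear over
the Witt vectors and commutes with the Frobenius. -/
def Realization.IsTate (R : Realization p k A κ κ') (φ : Matrix κ' κ ℚ_[p]) : Prop :=
  (∀ i j, ‖φ i j‖ ≤ 1) ∧ (∀ x, φ * R.fst.witt x = R.snd.witt x * φ) ∧
    φ * R.fst.frob = R.snd.frob * φ

/-- `φ` and `ψ` are congruent modulo `p ^ n`. -/
def Congruent (φ ψ : Matrix κ' κ ℚ_[p]) (n : ℤ) : Prop := ∀ i j, ‖(φ - ψ) i j‖ ≤ (p : ℝ) ^ (-n)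

/-- The lattice `N_n` of the pairs `(x, y)` of integral vectors with `y ≡ φ x` modulo `p ^ n`. -/
noncomputable def lattice (φ : Matrix κ' κ ℚ_[p]) (n : ℕ) : Set (κ ⊕ κ' → ℚ_[p]) :=
  {v | (∀ i, ‖v (Sum.inl i)‖ ≤ 1) ∧
    ∀ j, ‖v (Sum.inr j) - (φ *ᵥ fun i => v (Sum.inl i)) j‖ ≤ (p : ℝ) ^ (-(n : ℤ))}

/-- A set of vectors is stable under the Witt vectors and the Frobenius. -/
def Realization.IsStable (R : Realization p k A κ κ') (L : Set (κ ⊕ κ' → ℚ_[p])) : Prop :=
  (∀ x, ∀ v ∈ L, fromBlocks (R.fst.witt x) 0 0 (R.snd.witt x) *ᵥ v ∈ L) ∧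
    ∀ v ∈ L, fromBlocks R.fst.frob 0 0 R.snd.frob *ᵥ v ∈ L

/-- The motives with integral structures `(M ⊕ M', N_n)` and `(M ⊕ M', N_m)` are isomorphic: an
automorphism of the motive `M ⊕ M'` maps the lattice `N_n` onto `N_m`. -/
def Realization.Isomorphic (R : Realization p k A κ κ') (φ : Matrix κ' κ ℚ_[p]) (n m : ℕ) : Prop :=
  ∃ a : Aˣ, (fun v => R.real a *ᵥ v) '' lattice φ n = lattice φ m

/-! ## The linear form -/

section linear

theorem blocks_mul (a b : Matrix κ κ ℚ_[p]) (c d : Matrix κ' κ' ℚ_[p]) :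
    fromBlocks a 0 0 c * fromBlocks b 0 0 d = fromBlocks (a * b) 0 0 (c * d) := by
  rw [fromBlocks_multiply]
  simp

theorem blocks_pow (a : Matrix κ κ ℚ_[p]) (c : Matrix κ' κ' ℚ_[p]) (n : ℕ) :
    (fromBlocks a 0 0 c) ^ n = fromBlocks (a ^ n) 0 0 (c ^ n) := by
  induction n with
  | zero => rw [pow_zero, pow_zero, pow_zero, fromBlocks_one]
  | succ n ih => rw [pow_succ, ih, blocks_mul, ← pow_succ, ← pow_succ]

/-- the action of the Witt vectors on the sum -/
noncomputable def wittB (R : Realization p k A κ κ') :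
    WittVector p k →+* Matrix (κ ⊕ κ') (κ ⊕ κ') ℚ_[p] where
  toFun x := fromBlocks (R.fst.witt x) 0 0 (R.snd.witt x)
  map_one' := by rw [map_one, map_one, fromBlocks_one]
  map_mul' x y := by rw [map_mul, map_mul, blocks_mul]
  map_zero' := by rw [map_zero, map_zero, fromBlocks_zero]
  map_add' x y := by
    rw [map_add, map_add, fromBlocks_add, add_zero, add_zero]

/-- the Frobenius of the sum -/
noncomputable def frobB (R : Realization p k A κ κ') : Matrix (κ ⊕ κ') (κ ⊕ κ') ℚ_[p] :=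
  fromBlocks R.fst.frob 0 0 R.snd.frob

theorem wittB_apply (R : Realization p k A κ κ') (x : WittVector p k) :
    wittB R x = fromBlocks (R.fst.witt x) 0 0 (R.snd.witt x) := rfl

theorem wittB_integral (R : Realization p k A κ κ') (x : WittVector p k) (i j : κ ⊕ κ') :
    ‖wittB R x i j‖ ≤ 1 := by
  rw [wittB_apply]
  rcases i with i | i <;> rcases j with j | j
  · rw [fromBlocks_apply₁₁]; exact R.fst.witt_integral x i j
  · rw [fromBlocks_apply₁₂]; simp
  · rw [fromBlocks_apply₂₁]; simp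
  · rw [fromBlocks_apply₂₂]; exact R.snd.witt_integral x i j

theorem frobB_det (R : Realization p k A κ κ') : (frobB R).det ≠ 0 := by
  unfold frobB
  rw [det_fromBlocks_zero₂₁]
  exact mul_ne_zero R.fst.frob_injective R.snd.frob_injective

theorem frobB_semilinear (R : Realization p k A κ κ') (x : WittVector p k) :
    frobB R * wittB R x = wittB R (WittVector.frobenius x) * frobB R := by
  unfold frobB
  rw [wittB_apply, wittB_apply, blocks_mul, blocks_mul, R.fst.semilinear, R.snd.semilinear]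

/-- the lower blocks -/
theorem lower_iff (Y : Matrix (κ ⊕ κ') (κ ⊕ κ') ℚ_[p]) :
    (∃ ψ, Y = fromBlocks 0 0 ψ 0) ↔
      fromBlocks 1 0 0 0 * Y = 0 ∧ Y * fromBlocks 1 0 0 0 = Y := by
  constructor
  · rintro ⟨ψ, rfl⟩
    rw [fromBlocks_multiply, fromBlocks_multiply]
    simp
  · rintro ⟨h1, h2⟩
    obtain ⟨a, b, c, d, rfl⟩ : ∃ a b c d, Y = fromBlocks a b c d :=
      ⟨_, _, _, _, (fromBlocks_toBlocks Y).symm⟩
    rw [fromBlocks_multiply] at h1 h2
    simp only [Matrix.one_mul, Matrix.zero_mul, add_zero, Matrix.mul_one, Matrix.mul_zero] at h1 h2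
    have h3 := fromBlocks_inj.1 h2
    rw [← fromBlocks_zero] at h1
    have h4 := fromBlocks_inj.1 h1
    refine ⟨c, ?_⟩
    rw [h4.1, h4.2.1, ← h3.2.2.2]

/-- the block of a span -/
theorem block_mem {S : Set (Matrix κ' κ ℚ_[p])} {X : Matrix κ' κ ℚ_[p]} :
    (fromBlocks 0 0 X 0 : Matrix (κ ⊕ κ') (κ ⊕ κ') ℚ_[p]) ∈
      Submodule.span ℚ_[p] {Y | ∃ ψ ∈ S, Y = fromBlocks 0 0 ψ 0} ↔
      X ∈ Submodule.span ℚ_[p] S := by
  obtain ⟨f, hf⟩ : ∃ f : Matrix κ' κ ℚ_[p] →ₗ[ℚ_[p]] Matrix (κ ⊕ κ') (κ ⊕ κ') ℚ_[p],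
      ∀ ψ, f ψ = fromBlocks 0 0 ψ 0 := by
    refine ⟨{ toFun := fun ψ => fromBlocks 0 0 ψ 0, map_add' := fun a b => ?_,
              map_smul' := fun c a => ?_ }, fun _ => rfl⟩
    · rw [fromBlocks_add]; simp
    · rw [RingHom.id_apply, fromBlocks_smul]; simp
  have h1 : {Y | ∃ ψ ∈ S, Y = (fromBlocks 0 0 ψ 0 : Matrix (κ ⊕ κ') (κ ⊕ κ') ℚ_[p])} = f '' S := by
    ext Y
    constructor
    · rintro ⟨ψ, h, rfl⟩
      exact ⟨ψ, h, hf ψ⟩
    · rintro ⟨ψ, h, rfl⟩
      exact ⟨ψ, h, hf ψ⟩
  rw [h1, Submodule.span_image, ← hf]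
  constructor
  · rintro ⟨Z, hZ, hZX⟩
    have h2 : Z = X := by
      rw [hf, hf] at hZX
      exact (fromBlocks_inj.1 hZX).2.2.1
    rwa [← h2]
  · intro h
    exact ⟨X, h, rfl⟩

theorem linear_iff [Finite k] {r : ℕ} (hr : Nat.card k = p ^ r) (R : Realization p k A κ κ') :
    R.LinearTate r ↔ ∀ X : Matrix κ' κ ℚ_[p], (∀ x, X * R.fst.witt x = R.snd.witt x * X) →
      X * R.fst.frob = R.snd.frob * X → X ∈ R.algebraic := by
  obtain ⟨S, hS⟩ : ∃ S : Set (Matrix κ' κ ℚ_[p]), S = {ψ | ∃ a : A, R.real a = fromBlocks 0 0 ψ 0} :=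
    ⟨_, rfl⟩
  obtain ⟨SB, hSB⟩ : ∃ SB : Set (Matrix (κ ⊕ κ') (κ ⊕ κ') ℚ_[p]),
    SB = {Y | ∃ ψ ∈ S, Y = fromBlocks 0 0 ψ 0} := ⟨_, rfl⟩
  have hmul : ∀ (x : WittVector p k) (ψ : Matrix κ' κ ℚ_[p]),
      wittB R x * fromBlocks 0 0 ψ 0 = fromBlocks 0 0 (R.snd.witt x * ψ) 0 := by
    intro x ψ
    rw [wittB_apply, fromBlocks_multiply]
    simp
  have hSp : Pool.Agent.Helper95.CRY.Sp (wittB R) SB = Submodule.span ℚ_[p]
      {Y | ∃ ψ ∈ {Y | ∃ x ψ, ψ ∈ S ∧ Y = R.snd.witt x * ψ}, Y = fromBlocks 0 0 ψ 0} := by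
    unfold Pool.Agent.Helper95.CRY.Sp
    congr 1
    ext Y
    rw [hSB]
    constructor
    · rintro ⟨x, _, ⟨ψ, hψ, rfl⟩, rfl⟩
      exact ⟨_, ⟨x, ψ, hψ, rfl⟩, hmul x ψ⟩
    · rintro ⟨_, ⟨x, ψ, hψ, rfl⟩, rfl⟩
      exact ⟨x, _, ⟨ψ, hψ, rfl⟩, (hmul x ψ).symm⟩
  have hlin : ∀ X : Matrix κ' κ ℚ_[p], X ∈ R.linearAlgebraic ↔
      (fromBlocks 0 0 X 0 : Matrix (κ ⊕ κ') (κ ⊕ κ') ℚ_[p]) ∈
        Pool.Agent.Helper95.CRY.Sp (wittB R) SB := by
    intro X
    rw [hSp, block_mem]
    unfold Realization.linearAlgebraic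
    rw [hS]
    rfl
  have halg : ∀ X : Matrix κ' κ ℚ_[p], X ∈ R.algebraic ↔
      (fromBlocks 0 0 X 0 : Matrix (κ ⊕ κ') (κ ⊕ κ') ℚ_[p]) ∈ Submodule.span ℚ_[p] SB := by
    intro X
    rw [hSB, block_mem, hS]
    rfl
  have he : (fromBlocks 1 0 0 0 : Matrix (κ ⊕ κ') (κ ⊕ κ') ℚ_[p]) * frobB R =
      frobB R * fromBlocks 1 0 0 0 := by
    unfold frobB
    rw [fromBlocks_multiply, fromBlocks_multiply]
    simp
  have hew : ∀ x, (fromBlocks 1 0 0 0 : Matrix (κ ⊕ κ') (κ ⊕ κ') ℚ_[p]) * wittB R x =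
      wittB R x * fromBlocks 1 0 0 0 := by
    intro x
    rw [wittB_apply, fromBlocks_multiply, fromBlocks_multiply]
    simp
  constructor
  · intro h X hX hX'
    rw [halg]
    apply Pool.Agent.Helper95.CRY.tate_of_klin (witt := wittB R) (F := frobB R) (wittB_integral R)
      (frobB_det R) (frobB_semilinear R) hr
    · rintro _ hY
      rw [hSB] at hY
      obtain ⟨ψ, hψ, rfl⟩ := hY
      rw [hS] at hψ
      obtain ⟨a, ha⟩ := hψ
      rw [← ha]
      exact R.equivariant a
    · unfold frobB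
      rw [fromBlocks_multiply, fromBlocks_multiply]
      simp [hX']
    · rw [← hlin]
      apply h X hX
      have h1 : ∀ n : ℕ, X * R.fst.frob ^ n = R.snd.frob ^ n * X := by
        intro n
        induction n with
        | zero => simp
        | succ n ih =>
          rw [pow_succ, ← Matrix.mul_assoc, ih, Matrix.mul_assoc, hX', ← Matrix.mul_assoc, ← pow_succ]
      exact h1 r
  · intro h X hX hX'
    rw [hlin]
    apply Pool.Agent.Helper95.CRY.klin_of_traces (witt := wittB R) (F := frobB R)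
      (frobB_semilinear R) hr
    intro c
    have hXw : ∀ x, (fromBlocks 0 0 X 0 : Matrix (κ ⊕ κ') (κ ⊕ κ') ℚ_[p]) * wittB R x =
        wittB R x * fromBlocks 0 0 X 0 := by
      intro x
      rw [hmul, wittB_apply, fromBlocks_multiply]
      simp [hX]
    have hXF : (fromBlocks 0 0 X 0 : Matrix (κ ⊕ κ') (κ ⊕ κ') ℚ_[p]) * frobB R ^ r =
        frobB R ^ r * fromBlocks 0 0 X 0 := by
      unfold frobB
      rw [blocks_pow, fromBlocks_multiply, fromBlocks_multiply]
      simp [hX']
    have hFw : ∀ x, frobB R ^ r * wittB R x = wittB R x * frobB R ^ r := by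
      intro x
      rw [Pool.Agent.Helper95.CRY.pow_semilinear (frobB_semilinear R),
        Pool.Agent.Helper95.CRY.iter_frob hr]
    obtain ⟨ψ, hψ⟩ := (lower_iff (Pool.Agent.Helper95.CRY.Tr (frobB R) r
      (wittB R c * fromBlocks 0 0 X 0))).2 ⟨by
        rw [← Pool.Agent.Helper95.CRY.Tr_mul_left he, ← mul_assoc, hew, mul_assoc,
          fromBlocks_multiply]
        simp, by
        rw [← Pool.Agent.Helper95.CRY.Tr_mul_right (frobB_det R) he, mul_assoc, fromBlocks_multiply]
        simp⟩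
    have h1 := Pool.Agent.Helper95.CRY.Tr_witt (witt := wittB R) (F := frobB R) (r := r)
      (Z := wittB R c * fromBlocks 0 0 X 0) (frobB_det R) (frobB_semilinear R) (by
        intro x
        rw [mul_assoc, hXw, ← mul_assoc, ← mul_assoc, ← map_mul, ← map_mul, mul_comm c x])
    have h2 := Pool.Agent.Helper95.CRY.Tr_comm (F := frobB R) (r := r)
      (Z := wittB R c * fromBlocks 0 0 X 0) (frobB_det R) (by
        rw [mul_assoc, hXF, ← mul_assoc, ← mul_assoc, hFw])
    rw [hψ] at h1 h2 ⊢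
    rw [← halg]
    apply h ψ
    · intro x
      have h3 := h1 x
      rw [hmul, wittB_apply, fromBlocks_multiply] at h3
      have h4 := (fromBlocks_inj.1 h3).2.2.1
      simpa using h4
    · unfold frobB at h2
      rw [fromBlocks_multiply, fromBlocks_multiply] at h2
      have h4 := (fromBlocks_inj.1 h2).2.2.1
      simpa using h4

end linear

/-- **A crystalline Tate class is algebraic if and only if the sequence of its isogenies repeats, with a
uniform constant; and the `K`-linear form of the conjecture is equivalent to such repetitions.** -/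
theorem result [Finite k] [Algebra ℚ A] [FiniteDimensional ℚ A] [IsSemisimpleRing A]
    (R : Realization p k A κ κ') (r : ℕ) (hr : Nat.card k = p ^ r) :
    (∃ C : ℕ, ∀ φ : Matrix κ' κ ℚ_[p], R.IsTate φ →
      (∀ n, R.IsStable (lattice φ n)) ∧
      ((φ ∈ R.algebraic ∧ ∀ n m, R.Isomorphic φ n m) ∨
        (φ ∉ R.algebraic ∧ ∃ d : ℕ, (∃ ψ ∈ R.algebraic, Congruent φ ψ d) ∧
          (∀ ψ ∈ R.algebraic, ¬ Congruent φ ψ (d + 1)) ∧
          (∀ n m, n ≤ d → m ≤ d → R.Isomorphic φ n m) ∧
          ∀ n m, d + C ≤ n → d + C ≤ m → R.Isomorphic φ n m → n = m))) ∧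
    (R.LinearTate r ↔ ∀ φ : Matrix κ' κ ℚ_[p], R.IsTate φ →
      ∀ n₀ : ℕ, ∃ n m, n₀ ≤ n ∧ n < m ∧ R.Isomorphic φ n m) := by
  obtain ⟨C, hC⟩ := Pool.Agent.Helper95.ISO.dichotomy R.real R.injective R.projection
  have hC' : ∀ φ : Matrix κ' κ ℚ_[p], R.IsTate φ →
      ((φ ∈ R.algebraic ∧ ∀ n m, R.Isomorphic φ n m) ∨
        (φ ∉ R.algebraic ∧ ∃ d : ℕ, (∃ ψ ∈ R.algebraic, Congruent φ ψ d) ∧
          (∀ ψ ∈ R.algebraic, ¬ Congruent φ ψ (d + 1)) ∧
          (∀ n m, n ≤ d → m ≤ d → R.Isomorphic φ n m) ∧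
          ∀ n m, d + C ≤ n → d + C ≤ m → R.Isomorphic φ n m → n = m)) := fun φ hφ => hC φ hφ.1
  refine ⟨⟨C, fun φ hφ => ⟨?_, hC' φ hφ⟩⟩, ?_⟩
  · intro n
    have hz := (Pool.Agent.Helper95.ISO.pow_pos' (p := p) (-(n : ℤ))).le
    constructor
    · intro x
      refine (Pool.Agent.Helper95.ISO.maps_iff φ n _ _ (R.fst.witt_integral x)
        (R.snd.witt_integral x)).2 ?_
      intro i j
      rw [← hφ.2.1 x, sub_self]
      simpa using hz
    · refine (Pool.Agent.Helper95.ISO.maps_iff φ n _ _ R.fst.frob_integral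
        R.snd.frob_integral).2 ?_
      intro i j
      rw [← hφ.2.2, sub_self]
      simpa using hz
  · rw [linear_iff hr]
    constructor
    · intro h φ hφ n₀
      rcases hC' φ hφ with ⟨-, h1⟩ | ⟨h1, -⟩
      · exact ⟨n₀, n₀ + 1, le_rfl, by omega, h1 _ _⟩
      · exact absurd (h φ hφ.2.1 hφ.2.2) h1
    · intro h X hX hX'
      -- scale to an integral class
      obtain ⟨B, hB⟩ : ∃ B : ℝ, ∀ i j, ‖X i j‖ ≤ B :=
        ⟨∑ i, ∑ j, ‖X i j‖, fun i j =>
          (Finset.single_le_sum (f := fun j => ‖X i j‖) (fun _ _ => norm_nonneg _)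
            (Finset.mem_univ j)).trans
          (Finset.single_le_sum (f := fun i => ∑ j, ‖X i j‖)
            (fun _ _ => Finset.sum_nonneg fun _ _ => norm_nonneg _) (Finset.mem_univ i))⟩
      have hp : (1 : ℝ) < p := Pool.Agent.Helper95.ISO.one_lt_p
      obtain ⟨N, hN⟩ := pow_unbounded_of_one_lt B hp
      obtain ⟨c, hc⟩ : ∃ c : ℚ_[p], c = (p : ℚ_[p]) ^ N := ⟨_, rfl⟩
      have hc0 : c ≠ 0 := by
        rw [hc]
        exact pow_ne_zero _ Pool.Agent.Helper95.ISO.p_ne
      have hT : R.IsTate (c • X) := by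
        refine ⟨fun i j => ?_, fun x => ?_, ?_⟩
        · rw [Matrix.smul_apply, smul_eq_mul, norm_mul, hc, norm_pow, Padic.norm_p, inv_pow]
          rw [inv_mul_le_iff₀ (by positivity), mul_one]
          exact (hB i j).trans hN.le
        · rw [Matrix.smul_mul, hX, Matrix.mul_smul]
        · rw [Matrix.smul_mul, hX', Matrix.mul_smul]
      have h1 : c • X ∈ R.algebraic := by
        rcases hC' _ hT with ⟨h1, -⟩ | ⟨-, d, -, -, -, h5⟩
        · exact h1
        · exfalso
          obtain ⟨n, m, h6, h7, h8⟩ := h _ hT (d + C)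
          have := h5 n m h6 (by omega) h8
          omega
      have h2 := Submodule.smul_mem _ (c⁻¹) h1
      rwa [smul_smul, inv_mul_cancel₀ hc0, one_smul] at h2

end Pool.Agent.Results.MP_60ec62_ag.CrystalDichotomy
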