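import Pool.Agent.Helper95.CRY.SSim

/-!
# A gap theorem for the integral structures of motives over a finite field, equivalent to the
crystalline Tate conjecture with semisimplicity

`M` is a motive over a finite field `k` of characteristic `p` (a direct factor of `h(X)(j)`, `X` smooth
and proper), with an integral structure: a lattice `T` in its crystalline realization `H`, a module over
the ring `W` of Witt vectors of `k` which is stable under the crystalline Frobenius. The endomorphism
algebra `A = End(M)` is semisimple. An integral structure of the power `M ^ r` is a `W`-lattice `L` in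
`H ^ r` which is stable under the Frobenius, i.e. an `F`-crystal in the isogeny class of `T ^ r`, and two
of them are isomorphic if an automorphism of the motive `M ^ r`, i.e. an element of `GL_r(A)`, maps one
onto the other.

We prove that the crystalline Tate conjecture for the endomorphisms of `M` (the endomorphisms of the
`F`-isocrystal `H` are the `ℚ_p`-combinations of algebraic ones; this is the conjecture for the part
`M ⊗ M^∨` of `h(X × X)` in codimension `dim X`), together with the semisimplicity of the
`F`-isocrystal `H`, is *equivalent* to its `K`-linear form (`K` the fraction field of `W`: the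
`K`-linear endomorphisms of `H` which commute with the `K`-linear Frobenius are the `K`-combinations of
algebraic ones, and the `K`-linear Frobenius is semisimple), and to each of the following properties:

* there are only finitely many isomorphism classes of integral structures of `M ⊕ M` (and then this
  holds for all the powers of `M`);
* the number of isomorphism classes of the integral structures of `M ⊕ M` between `p ^ n T²` and `T²` is
  not at least `n - n₀` for all `n`, for any constant `n₀`. So this number is either bounded or at least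
  `n - n₀`: there is no growth between bounded and linear, and it would be enough for the conjecture to
  prove that it is `o(n)`;
* for every sub-`F`-isocrystal `V` of `H ⊕ H`, the sequence of the `F`-crystals
  `L_n = (T² ∩ V) + p ^ n T²` has two isomorphic terms `L_n`, `L_m`, `m > n ≥ n₀`, for every `n₀`. If the
  conjecture fails there is a `V` such that all the `L_n`, `n ≥ n₀`, are pairwise not isomorphic.
-/

open Matrix

namespace Pool.Agent.Results.MP_60ec62_ag.CrystalGap

/-- An `F`-crystal over `k`: a free `ℤ_p`-module `T` of finite rank, with a basis `κ`, with an action of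
the Witt vectors of `k` and an injective Frobenius-linear endomorphism. As `k` is finite, these are the
`W(k)`-lattices with a Frobenius, viewed as `ℤ_p`-lattices with operators. -/
structure Crystal (p : ℕ) [Fact p.Prime] (k κ : Type) [Field k] [CharP k p] [Fintype κ]
    [DecidableEq κ] where
  /-- multiplication by the Witt vectors -/
  witt : WittVector p k →+* Matrix κ κ ℚ_[p]
  /-- the crystalline Frobenius -/
  frob : Matrix κ κ ℚ_[p]
  /-- the lattice is stable under the Witt vectors -/
  witt_integral : ∀ x i j, ‖witt x i j‖ ≤ 1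
  /-- the lattice is stable under the Frobenius -/
  frob_integral : ∀ i j, ‖frob i j‖ ≤ 1
  /-- the Frobenius is injective -/
  frob_injective : frob.det ≠ 0
  /-- the Frobenius is semilinear -/
  semilinear : ∀ x, frob * witt x = witt (WittVector.frobenius x) * frob

/-- The crystalline realization of a motive `M` with an integral structure, and of the algebra
`A = End(M)`. -/
structure Realization (p : ℕ) [Fact p.Prime] (k A κ : Type) [Field k] [CharP k p] [Ring A] [Fintype κ]
    [DecidableEq κ] extends Crystal p k κ where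
  /-- the realization of the endomorphisms -/
  real : A →+* Matrix κ κ ℚ_[p]
  /-- it is injective -/
  injective : Function.Injective real
  /-- endomorphisms are linear over the Witt vectors -/
  linear : ∀ a x, real a * witt x = witt x * real a
  /-- endomorphisms commute with the Frobenius -/
  equivariant : ∀ a, real a * frob = frob * real a

variable {p : ℕ} [Fact p.Prime] {k A κ : Type} [Field k] [CharP k p] [Ring A] [Fintype κ]
  [DecidableEq κ]

/-- The diagonal action of an operator on the realization of the power `M ^ r`. -/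
noncomputable def diag (r : ℕ) (X : Matrix κ κ ℚ_[p]) : Matrix (Fin r × κ) (Fin r × κ) ℚ_[p] :=
  Matrix.of fun x y => if x.1 = y.1 then X x.2 y.2 else 0

/-- A set of vectors of the realization of `M ^ r` is stable under the Witt vectors and the
Frobenius. -/
def Crystal.IsStable (R : Crystal p k κ) {r : ℕ} (L : Set (Fin r × κ → ℚ_[p])) : Prop :=
  (∀ x, ∀ v ∈ L, diag r (R.witt x) *ᵥ v ∈ L) ∧ ∀ v ∈ L, diag r R.frob *ᵥ v ∈ L

/-- The crystalline Tate conjecture for the endomorphisms of `M`, and semisimplicity: every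
sub-`F`-isocrystal (a subspace stable under the Witt vectors and the Frobenius) has a complementary
sub-`F`-isocrystal, and every endomorphism of the `F`-isocrystal is a `ℚ_p`-combination of realizations
of elements of `A`. -/
def Realization.TateAndSemisimple (R : Realization p k A κ) : Prop :=
  (∀ V : Submodule ℚ_[p] (κ → ℚ_[p]),
    (∀ x, ∀ v ∈ V, R.witt x *ᵥ v ∈ V) → (∀ v ∈ V, R.frob *ᵥ v ∈ V) →
    ∃ V' : Submodule ℚ_[p] (κ → ℚ_[p]), (∀ x, ∀ v ∈ V', R.witt x *ᵥ v ∈ V') ∧
      (∀ v ∈ V', R.frob *ᵥ v ∈ V') ∧ IsCompl V V') ∧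
  ∀ X : Matrix κ κ ℚ_[p], (∀ x, X * R.witt x = R.witt x * X) → X * R.frob = R.frob * X →
    X ∈ Submodule.span ℚ_[p] (Set.range R.real)

/-- The `K`-linear form, where `k` has `p ^ r` elements, so that `frob ^ r` is the linear Frobenius:
every `K`-subspace (a subspace stable under the Witt vectors) stable under the linear Frobenius has a
complement of this kind, and every `K`-linear endomorphism which commutes with the linear Frobenius is a
`K`-combination of realizations of elements of `A`. -/
def Realization.LinearTateAndSemisimple (R : Realization p k A κ) (r : ℕ) : Prop :=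
  (∀ V : Submodule ℚ_[p] (κ → ℚ_[p]),
    (∀ x, ∀ v ∈ V, R.witt x *ᵥ v ∈ V) → (∀ v ∈ V, R.frob ^ r *ᵥ v ∈ V) →
    ∃ V' : Submodule ℚ_[p] (κ → ℚ_[p]), (∀ x, ∀ v ∈ V', R.witt x *ᵥ v ∈ V') ∧
      (∀ v ∈ V', R.frob ^ r *ᵥ v ∈ V') ∧ IsCompl V V') ∧
  ∀ X : Matrix κ κ ℚ_[p], (∀ x, X * R.witt x = R.witt x * X) → X * R.frob ^ r = R.frob ^ r * X →
    X ∈ Submodule.span ℚ_[p] {Y | ∃ x, ∃ a, Y = R.witt x * R.real a}

/-- The realization of the endomorphisms of `M ^ r`: the matrix `X` over `A` gives the block matrix with
the blocks `real (X i j)`. -/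
noncomputable def Realization.realPow (R : Realization p k A κ) (r : ℕ) :
    Matrix (Fin r) (Fin r) A →+* Matrix (Fin r × κ) (Fin r × κ) ℚ_[p] :=
  ((Matrix.compRingEquiv (Fin r) κ ℚ_[p]) : _ →+* _).comp R.real.mapMatrix

/-- `L` is a lattice: it contains some `p ^ k T` and is contained in `p ^ (-k) T`, `T` the lattice of the
integral vectors. -/
def IsLattice {ι : Type} (L : Submodule ℤ_[p] (ι → ℚ_[p])) : Prop :=
  ∃ k : ℕ, (∀ v : ι → ℚ_[p], (∀ i, ‖v i‖ ≤ (p : ℝ) ^ (-(k : ℤ))) → v ∈ L) ∧
    ∀ v ∈ L, ∀ i, ‖v i‖ ≤ (p : ℝ) ^ (k : ℤ)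

/-- Two integral structures of `M ^ r` are isomorphic: an automorphism of `M ^ r` maps `L` onto `L'`. -/
def Realization.Isomorphic (R : Realization p k A κ) {r : ℕ}
    (L L' : Submodule ℤ_[p] (Fin r × κ → ℚ_[p])) : Prop :=
  ∃ a : (Matrix (Fin r) (Fin r) A)ˣ,
    (fun v => R.realPow r a *ᵥ v) '' (L : Set (Fin r × κ → ℚ_[p])) = L'

/-- The integral structures of `M ^ r` (the lattices stable under the Witt vectors and the Frobenius)
form finitely many isomorphism classes. -/
def Realization.FinitelyManyClasses (R : Realization p k A κ) (r : ℕ) : Prop :=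
  ∃ F : Set (Submodule ℤ_[p] (Fin r × κ → ℚ_[p])), F.Finite ∧
    ∀ L : Submodule ℤ_[p] (Fin r × κ → ℚ_[p]), IsLattice L →
      R.IsStable (L : Set (Fin r × κ → ℚ_[p])) → ∃ L' ∈ F, R.Isomorphic L L'

/-- There are at least `m` isomorphism classes of integral structures of `M ⊕ M` between `p ^ n T²` and
`T²`. -/
def Realization.HasClasses (R : Realization p k A κ) (n m : ℕ) : Prop :=
  ∃ L : Fin m → Submodule ℤ_[p] (Fin 2 × κ → ℚ_[p]),
    (∀ i, R.IsStable (L i : Set (Fin 2 × κ → ℚ_[p])) ∧
      (∀ v : Fin 2 × κ → ℚ_[p], (∀ x, ‖v x‖ ≤ (p : ℝ) ^ (-(n : ℤ))) → v ∈ L i) ∧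
      ∀ v ∈ L i, ∀ x, ‖v x‖ ≤ 1) ∧
    ∀ i j, R.Isomorphic (L i) (L j) → i = j

/-- The lattices `(T ∩ V) + p ^ n T`. -/
def truncation {ι : Type} [Fintype ι] [DecidableEq ι] (V : Submodule ℚ_[p] (ι → ℚ_[p])) (n : ℕ) :
    Submodule ℤ_[p] (ι → ℚ_[p]) where
  carrier := {v | ∃ w ∈ V, (∀ i, ‖w i‖ ≤ 1) ∧ ∀ i, ‖v i - w i‖ ≤ (p : ℝ) ^ (-(n : ℤ))}
  add_mem' := (Pool.Agent.Helper95.ISO.trunc V n).add_mem'
  zero_mem' := (Pool.Agent.Helper95.ISO.trunc V n).zero_mem'
  smul_mem' := (Pool.Agent.Helper95.ISO.trunc V n).smul_mem'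

/-! ## The monoid of operators -/

/-- the generators: the Witt vectors and the Frobenius -/
abbrev Gen (p : ℕ) (k : Type) := Option (WittVector p k)

/-- the operator of a generator -/
noncomputable def Crystal.op (R : Crystal p k κ) : Gen p k → Matrix κ κ ℚ_[p]
  | none => R.frob
  | some x => R.witt x

/-- the action of the free monoid -/
noncomputable def Crystal.act (R : Crystal p k κ) : FreeMonoid (Gen p k) →* Matrix κ κ ℚ_[p] :=
  FreeMonoid.lift R.op

theorem norm_mul_le_one {X Y : Matrix κ κ ℚ_[p]} (hX : ∀ i j, ‖X i j‖ ≤ 1) (hY : ∀ i j, ‖Y i j‖ ≤ 1)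
    (i j : κ) : ‖(X * Y) i j‖ ≤ 1 := by
  rw [Matrix.mul_apply]
  apply IsUltrametricDist.norm_sum_le_of_forall_le_of_nonneg zero_le_one
  intro x _
  rw [norm_mul]
  exact mul_le_one₀ (hX i x) (norm_nonneg _) (hY x j)

theorem Crystal.act_integral (R : Crystal p k κ) (γ : FreeMonoid (Gen p k)) :
    ∀ i j, ‖R.act γ i j‖ ≤ 1 := by
  induction γ using FreeMonoid.recOn with
  | one =>
    intro i j
    rw [map_one, Matrix.one_apply]
    split_ifs <;> simp
  | of_mul x xs h =>
    rw [map_mul]
    refine norm_mul_le_one ?_ h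
    unfold Crystal.act
    rw [FreeMonoid.lift_eval_of]
    cases x with
    | none => exact R.frob_integral
    | some x => exact R.witt_integral x

theorem Crystal.act_comm (R : Crystal p k κ) {X : Matrix κ κ ℚ_[p]}
    (h1 : ∀ x, X * R.witt x = R.witt x * X) (h2 : X * R.frob = R.frob * X)
    (γ : FreeMonoid (Gen p k)) : X * R.act γ = R.act γ * X := by
  induction γ using FreeMonoid.recOn with
  | one => rw [map_one, mul_one, one_mul]
  | of_mul x xs h =>
    have h3 : X * R.op x = R.op x * X := by
      cases x with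
      | none => exact h2
      | some x => exact h1 x
    rw [map_mul]
    unfold Crystal.act at h ⊢
    rw [FreeMonoid.lift_eval_of, ← mul_assoc, h3, mul_assoc, h, mul_assoc]

theorem Crystal.act_stable (R : Crystal p k κ) {V : Set (κ → ℚ_[p])}
    (h1 : ∀ x, ∀ v ∈ V, R.witt x *ᵥ v ∈ V) (h2 : ∀ v ∈ V, R.frob *ᵥ v ∈ V)
    (γ : FreeMonoid (Gen p k)) : ∀ v ∈ V, R.act γ *ᵥ v ∈ V := by
  induction γ using FreeMonoid.recOn with
  | one =>
    intro v hv
    rwa [map_one, Matrix.one_mulVec]
  | of_mul x xs h =>
    intro v hv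
    rw [map_mul, ← Matrix.mulVec_mulVec]
    unfold Crystal.act at h ⊢
    rw [FreeMonoid.lift_eval_of]
    cases x with
    | none => exact h2 _ (h v hv)
    | some x => exact h1 x _ (h v hv)

theorem Crystal.act_some (R : Crystal p k κ) (x : WittVector p k) :
    R.act (FreeMonoid.of (some x)) = R.witt x := by
  unfold Crystal.act
  rw [FreeMonoid.lift_eval_of]
  rfl

theorem Crystal.act_none (R : Crystal p k κ) : R.act (FreeMonoid.of none) = R.frob := by
  unfold Crystal.act
  rw [FreeMonoid.lift_eval_of]
  rfl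

theorem diag_one (r : ℕ) : diag r (1 : Matrix κ κ ℚ_[p]) = 1 := by
  ext x y
  unfold diag
  rw [Matrix.of_apply, Matrix.one_apply, Matrix.one_apply]
  by_cases h1 : x.1 = y.1
  · by_cases h2 : x.2 = y.2
    · rw [if_pos h1, if_pos h2, if_pos (Prod.ext h1 h2)]
    · rw [if_pos h1, if_neg h2, if_neg (fun h => h2 (by rw [h]))]
  · rw [if_neg h1, if_neg (fun h => h1 (by rw [h]))]

theorem diag_mul (r : ℕ) (X Y : Matrix κ κ ℚ_[p]) : diag r (X * Y) = diag r X * diag r Y := by
  ext x y
  rw [Matrix.mul_apply, Fintype.sum_prod_type]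
  unfold diag
  simp only [Matrix.of_apply]
  by_cases h1 : x.1 = y.1
  · rw [if_pos h1, Matrix.mul_apply, Finset.sum_eq_single x.1]
    · apply Finset.sum_congr rfl
      intro j _
      rw [if_pos rfl, if_pos h1]
    · intro i _ hi
      apply Finset.sum_eq_zero
      intro j _
      rw [if_neg (Ne.symm hi), zero_mul]
    · intro h
      exact absurd (Finset.mem_univ _) h
  · rw [if_neg h1]
    symm
    apply Finset.sum_eq_zero
    intro i _
    apply Finset.sum_eq_zero
    intro j _
    by_cases h2 : x.1 = i
    · rw [if_neg (fun h => h1 (h2.trans h)), mul_zero]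
    · rw [if_neg h2, zero_mul]

theorem galPow_eq (R : Crystal p k κ) (r : ℕ) (γ : FreeMonoid (Gen p k)) :
    Pool.Agent.Helper95.ISO.galPow R.act r γ = diag r (R.act γ) := rfl

theorem Crystal.stable_iff (R : Crystal p k κ) {r : ℕ} (L : Set (Fin r × κ → ℚ_[p])) :
    R.IsStable L ↔ ∀ γ, ∀ v ∈ L, Pool.Agent.Helper95.ISO.galPow R.act r γ *ᵥ v ∈ L := by
  constructor
  · rintro ⟨h1, h2⟩ γ
    induction γ using FreeMonoid.recOn with
    | one =>
      intro v hv
      rw [galPow_eq, map_one, diag_one, Matrix.one_mulVec]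
      exact hv
    | of_mul x xs h =>
      intro v hv
      rw [galPow_eq, map_mul, diag_mul, ← Matrix.mulVec_mulVec]
      have h3 := h v hv
      rw [galPow_eq] at h3
      cases x with
      | none =>
        rw [R.act_none]
        exact h2 _ h3
      | some x =>
        rw [R.act_some]
        exact h1 x _ h3
  · intro h
    refine ⟨fun x v hv => ?_, fun v hv => ?_⟩
    · have := h (FreeMonoid.of (some x)) v hv
      rwa [galPow_eq, R.act_some] at this
    · have := h (FreeMonoid.of none) v hv
      rwa [galPow_eq, R.act_none] at this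

theorem linear_iff [Finite k] {r : ℕ} (hr : Nat.card k = p ^ r) (R : Realization p k A κ) :
    R.LinearTateAndSemisimple r ↔ R.TateAndSemisimple := by
  have e : Pool.Agent.Helper95.CRY.Sp R.witt (Set.range R.real) =
      Submodule.span ℚ_[p] {Y | ∃ x, ∃ a, Y = R.witt x * R.real a} := by
    unfold Pool.Agent.Helper95.CRY.Sp
    congr 1
    ext Y
    constructor
    · rintro ⟨x, _, ⟨a, rfl⟩, h⟩
      exact ⟨x, a, h⟩
    · rintro ⟨x, a, h⟩
      exact ⟨x, _, ⟨a, rfl⟩, h⟩
  constructor
  · rintro ⟨h1, h2⟩
    refine ⟨Pool.Agent.Helper95.CRY.ss_semi_of_lin hr R.frob_injective R.semilinear h1, ?_⟩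
    intro X hX hX'
    apply Pool.Agent.Helper95.CRY.tate_of_klin (witt := R.witt) R.witt_integral R.frob_injective
      R.semilinear hr (by rintro _ ⟨a, rfl⟩; exact R.equivariant a) hX'
    rw [e]
    exact h2 X hX ((show Commute X R.frob from hX').pow_right r)
  · rintro ⟨h1, h2⟩
    refine ⟨Pool.Agent.Helper95.CRY.ss_lin_of_semi hr R.witt_integral R.semilinear h1, ?_⟩
    intro X hX hX'
    rw [← e]
    exact Pool.Agent.Helper95.CRY.klin_of_tate R.frob_injective R.semilinear hr h2 hX hX'

/-- **The crystalline Tate conjecture with semisimplicity, in its `K`-linear or in its `ℚ_p`-linear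
form, is equivalent to the finiteness of the set of isomorphism classes of integral structures of
`M ⊕ M`, to the failure of linear growth of the number of classes, and to repetitions in the sequences
of truncations.** -/
theorem result [Finite k] [Algebra ℚ A] [FiniteDimensional ℚ A] [IsSemisimpleRing A]
    (R : Realization p k A κ) (s : ℕ) (hs : Nat.card k = p ^ s) :
    List.TFAE [
      R.LinearTateAndSemisimple s,
      R.TateAndSemisimple,
      ∀ r, R.FinitelyManyClasses r,
      R.FinitelyManyClasses 2,
      ∀ n₀ : ℕ, ∃ n, n₀ ≤ n ∧ ¬ R.HasClasses n (n - n₀),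
      ∀ V : Submodule ℚ_[p] (Fin 2 × κ → ℚ_[p]), R.IsStable (V : Set (Fin 2 × κ → ℚ_[p])) →
        ∀ n₀ : ℕ, ∃ n m, n₀ ≤ n ∧ n < m ∧ R.Isomorphic (truncation V n) (truncation V m)] := by
  have h := Pool.Agent.Helper95.ISO.tfae R.act R.act_integral R.real R.injective
    (fun a γ => R.act_comm (R.linear a) (R.equivariant a) γ)
  have e1 : R.TateAndSemisimple ↔ Pool.Agent.Helper95.ISO.TateSS R.act R.real := by
    constructor
    · rintro ⟨h1, h2⟩
      refine ⟨fun V hV => ?_, fun X hX => ?_⟩
      · obtain ⟨V', a1, a2, a3⟩ := h1 V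
          (fun x v hv => by have := hV (FreeMonoid.of (some x)) v hv; rwa [R.act_some] at this)
          (fun v hv => by have := hV (FreeMonoid.of none) v hv; rwa [R.act_none] at this)
        exact ⟨V', fun γ => R.act_stable (V := (V' : Set _)) a1 a2 γ, a3⟩
      · exact h2 X
          (fun x => by have := hX (FreeMonoid.of (some x)); rwa [R.act_some] at this)
          (by have := hX (FreeMonoid.of none); rwa [R.act_none] at this)
    · rintro ⟨h1, h2⟩
      refine ⟨fun V hV hV' => ?_, fun X hX hX' => ?_⟩
      · obtain ⟨V', a1, a3⟩ := h1 V (fun γ => R.act_stable (V := (V : Set _)) hV hV' γ)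
        exact ⟨V', fun x v hv => by have := a1 (FreeMonoid.of (some x)) v hv; rwa [R.act_some] at this,
          fun v hv => by have := a1 (FreeMonoid.of none) v hv; rwa [R.act_none] at this, a3⟩
      · exact h2 X (fun γ => R.act_comm hX hX' γ)
  have e2 : ∀ r, R.FinitelyManyClasses r ↔ Pool.Agent.Helper95.ISO.FinCl R.act R.real r := by
    intro r
    constructor
    · rintro ⟨F, hF, hL⟩
      exact ⟨F, hF, fun L h1 h2 => hL L h1 ((R.stable_iff _).2 h2)⟩
    · rintro ⟨F, hF, hL⟩
      exact ⟨F, hF, fun L h1 h2 => hL L h1 ((R.stable_iff _).1 h2)⟩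
  have e3 : ∀ n m, R.HasClasses n m ↔ Pool.Agent.Helper95.ISO.HasCl R.act R.real n m := by
    intro n m
    constructor
    · rintro ⟨L, h1, h2⟩
      exact ⟨L, fun i => ⟨(R.stable_iff _).1 (h1 i).1, (h1 i).2⟩, h2⟩
    · rintro ⟨L, h1, h2⟩
      exact ⟨L, fun i => ⟨(R.stable_iff _).2 (h1 i).1, (h1 i).2⟩, h2⟩
  tfae_have 1 ↔ 2 := linear_iff hs R
  tfae_have 2 ↔ 3 := by
    rw [e1]
    simp only [e2]
    exact h.out 0 1
  tfae_have 2 ↔ 4 := by
    rw [e1, e2]
    exact h.out 0 2
  tfae_have 2 ↔ 5 := by
    rw [e1]
    simp only [e3]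
    exact h.out 0 3
  tfae_have 2 ↔ 6 := by
    rw [e1]
    have h5 := h.out 0 4
    rw [h5]
    constructor
    · intro h6 V hV
      exact h6 V ((R.stable_iff _).1 hV)
    · intro h6 V hV
      exact h6 V ((R.stable_iff _).2 hV)
  tfae_finish

end Pool.Agent.Results.MP_60ec62_ag.CrystalGap
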