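import Pool.Agent.Helper24.CT.Main

/-!
# MP_60ec62_ag: the crystalline Tate conjecture and cubic hypersurfaces
-/

set_option autoImplicit false

open CategoryTheory Limits AlgebraicGeometry Pool.Agent.Y116.UV Pool.Agent.Q282.UM
  Pool.Agent.Q282.UK Pool.Agent.Helper24.CT

namespace Pool.Agent.Results.MP_60ec62_ag.CubicHypersurfaces

universe v u

/-- **The crystalline Tate conjecture and cubic hypersurfaces.** Let `C` be the category of Chow
motives over the finite field `k` with rational coefficients, with the crystalline cohomology and the
weight complexes `W(Y)` of the schemes `Y` of finite type over `k`. The missing classes of a motive are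
the crystalline cohomology classes of degree zero fixed by the Frobenius, modulo the classes of cycles.

* For all `N`, the crystalline Tate conjecture (in all codimensions) is true for all smooth projective
  schemes over `k` of dimension at most `N` if and only if the complexes of the missing classes of the
  twists of `W(Y)` are acyclic for all cubic hypersurfaces `Y : T(x, y, z) = 1`, `T` a trilinear form
  over `k` with a block of at most `N + 2` variables.
* If `k` is a prime field, it is enough to consider the hypersurfaces
  `∑_{(i, j, l) ∈ E} x_i y_j z_l = 1` of the tripartite hypergraphs `E` whose third part has at most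
  `N + 2` vertices. -/
theorem result {C : Type u} [Category.{v} C] [Preadditive C] [HasZeroObject C]
    [HasBinaryBiproducts C] [HasFiniteBiproducts C] (k : Type) [Field k] [Finite k] (K : Type)
    [Field K] (D : Crystals k K C) (hD : IsWeights D.toWeights) (N : ℕ) :
    ((∀ X : Sch k, IsSmoothProjective X → topologicalKrullDim X.left ≤ N → TateFor D X) ↔
      ∀ (a b c : ℕ) (T : Fin a → Fin b → Fin c → k), (a ≤ N + 2 ∨ b ≤ N + 2 ∨ c ≤ N + 2) →
        AcyclicFor D (hypS T)) ∧
    ((Nat.card k).Prime →
      ((∀ X : Sch k, IsSmoothProjective X → topologicalKrullDim X.left ≤ N → TateFor D X) ↔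
        ∀ (a b c : ℕ) (E : Finset (Fin a × Fin b × Fin c)), c ≤ N + 2 →
          AcyclicFor D (tripS k E))) := by
  refine ⟨blocks hD N, fun hk => graphs hD ?_ N⟩
  have : Fact (Nat.card k).Prime := ⟨hk⟩
  have := Fintype.ofFinite k
  let e : ZMod (Nat.card k) ≃+* k := ZMod.ringEquivOfPrime k hk (by rw [Nat.card_eq_fintype_card])
  intro x
  obtain ⟨n, hn⟩ := ZMod.intCast_surjective (e.symm x)
  refine ⟨n, ?_⟩
  rw [← map_intCast e, hn, e.apply_symm_apply]

end Pool.Agent.Results.MP_60ec62_ag.CubicHypersurfaces
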