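import Pool.Agent.Helper24.KG.Exist

/-!
# The growth of the missing crystalline Tate classes of hypersurface complements

Let `k` be a finite field with `q` elements, `K` the fraction field of the ring of Witt vectors of `k`, and
let `C` be the category of Chow motives over `k` with rational coefficients. For a motive `N` let
`cyc N = CH^0(N) ⊗ K`, let `fixed N` be the space of the classes in the crystalline cohomology of `N` in
degree zero which are fixed by the `K`-linear Frobenius, and let `cl : cyc N → fixed N` be the cycle class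
map. For `N = h(X)(i)`, `X` smooth and projective, this is the map
`CH^i(X) ⊗ K → H^{2i}_crys(X)(i)^Fr` of question Q1. The space `miss N = coker cl` of the missing classes is
an additive functor of `N`, and Q1 for `X` and `i` (`Conj i X`) is the vanishing of `miss (h(X)(i))`.

For a separated scheme `X` of finite type over `k` let `W(X)` be its weight complex with compact supports
(Gillet, Soulé), a bounded complex of Chow motives; its terms are direct summands of motives of smooth
projective schemes of dimension at most `dim X` (`IsWeightsF`). Let `χ_i(X)` (`euler i X`) be the Euler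
characteristic of the complex `miss (W(X)(i))`. We look at the open subsets `D(F) : F ≠ 0` of the affine
spaces, `F ∈ k[x_1, …, x_r]`.

**Theorem.** (1) The Euler characteristics `χ_i(X)` are defined.

(2) Let `i` and `d ≥ 0` be given. The cycle class maps `CH^i(X) ⊗ K → H^{2i}_crys(X)(i)^Fr` are surjective for
all smooth projective `X` over `k` of dimension at most `d` if and only if the numbers `χ_i(D(F))` are
`o(deg F / log (deg F + 3))`, for `F ∈ k[x_1, …, x_{d+1}]`.

(3) One-sided bounds `χ_i(D(F)) ≤ o(deg F / log (deg F + 3))` (or the same for `-χ_i`), for the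
polynomials in `d + 1` and in `d + 2` variables, are enough, too.

(4) Let `I` be given. The cycle class maps are surjective for all smooth projective `X` over `k` and all
`i ≤ I` if and only if `χ_i(D(F)) ≤ o(q^r)` for all `i ≤ I`, for the polynomials `F ∈ k[x_1, …, x_r]` with
`deg F ≤ q r + b`, for all `b`. The same with `-χ_i`.
-/

set_option autoImplicit false
set_option linter.checkUnivs false

open CategoryTheory Limits AlgebraicGeometry Pool.Agent.Y116.UV Pool.Agent.Q282.UM
  Pool.Agent.Q282.UK Pool.Agent.Helper24.KD Pool.Agent.Helper24.KF Pool.Agent.Helper24.KG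

universe v u

namespace Pool.Agent.Results.MP_60ec62_ag.GrowthOfMissingClasses

/-- The category `C` of Chow motives over `k`, with

* the motives `h(X)`, the Tate twists `N(j)` and the weight complexes `W(X)` (`Weights`);
* the functors `cyc`, `fixed` and the cycle class map `cl`. -/
structure Mot (k : Type) [Field k] (K : Type) [Field K] where
  C : Type u
  [cat : Category.{v} C]
  [pre : Preadditive C]
  [zero : HasZeroObject C]
  [bin : HasBinaryBiproducts C]
  [fin : HasFiniteBiproducts C]
  D : Weights k C
  cyc : C ⥤ ModuleCat.{0} K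
  fixed : C ⥤ ModuleCat.{0} K
  [cyc_additive : cyc.Additive]
  [fixed_additive : fixed.Additive]
  cl : cyc ⟶ fixed

attribute [instance] Mot.cat Mot.pre Mot.zero Mot.bin Mot.fin Mot.cyc_additive Mot.fixed_additive

variable {k : Type} [Field k] {K : Type} [Field K] (M : Mot.{v, u} k K)

/-- The motive `h(X)(i)`. -/
noncomputable def Mot.motive (i : ℤ) (X : Sch k) : M.C := (M.D.tw i).obj (M.D.h X)

/-- Question Q1 for the smooth projective scheme `X` in codimension `i`. -/
def Conj (i : ℤ) (X : Sch k) : Prop := Function.Surjective (M.cl.app (M.motive i X)).hom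

/-- The missing classes. -/
noncomputable abbrev Mot.miss : M.C ⥤ ModuleCat.{0} K := cokerF M.cl

/-- The known properties of the Chow motives over `k`.

* `weight`: the weight complexes;
* `finite`: crystalline cohomology has finite dimension;
* `points`: Q1 is true in dimension zero;
* `negative`: there is no cohomology in negative degrees. -/
structure KnownFacts : Prop where
  weight : IsWeightsF M.D
  finite : ∀ X : Sch k, IsSmoothProjective X → ∀ i : ℤ,
    Module.Finite K (M.fixed.obj (M.motive i X))
  points : ∀ X : Sch k, IsSmoothProjective X → topologicalKrullDim X.left ≤ (0 : ℕ) →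
    ∀ i : ℤ, Conj M i X
  negative : ∀ X : Sch k, IsSmoothProjective X → ∀ i : ℤ, i < 0 →
    Subsingleton (M.fixed.obj (M.motive i X))

/-- `χ_i(D(F)) ≤ o(deg F / log (deg F + 3))` for `F ∈ k[x_1, …, x_r]`; here `R χ` is `|χ|`, `χ` or
`-χ`. -/
def DegBound (R : ℤ → ℤ) (i : ℤ) (r : ℕ) : Prop :=
  ∀ ε : ℝ, 0 < ε → ∃ B : ℝ, ∀ G : MvPolynomial (Fin r) k,
    (R (euler M.miss M.D i (princ G)) : ℝ) ≤ ε * size G + B

/-- For all `b`: `χ_i(D(F)) ≤ o(q^r)` for `F ∈ k[x_1, …, x_r]` of degree at most `q r + b`. -/
def SlowGrowth (R : ℤ → ℤ) (i : ℤ) : Prop :=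
  ∀ (b : ℕ) (ε : ℝ), 0 < ε → ∃ r₀ : ℕ, ∀ r, r₀ ≤ r → ∀ G : MvPolynomial (Fin r) k,
    G.totalDegree ≤ Nat.card k * r + b →
      (R (euler M.miss M.D i (princ G)) : ℝ) ≤ ε * (Nat.card k : ℝ) ^ r

variable {M}

lemma conj_iff (i : ℤ) (X : Sch k) : Conj M i X ↔ Zero M.miss M.D i X := by
  unfold Conj
  rw [← ModuleCat.epi_iff_surjective]
  constructor
  · intro h
    exact ModuleCat.subsingleton_of_isZero (isZero_cokernel_of_epi (M.cl.app (M.motive i X)))
  · intro h
    have h3 : IsZero (cokernel (M.cl.app (M.motive i X))) :=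
      @ModuleCat.isZero_of_subsingleton _ _ _ h
    exact Preadditive.epi_of_isZero_cokernel _ h3

lemma known (hM : KnownFacts M) : Known M.miss M.D where
  weight := hM.weight
  points i X hX hd := (conj_iff i X).mp (hM.points X hX (by exact_mod_cast hd) i)
  negative i hi X hX := (conj_iff i X).mp (by
    have := hM.negative X hX i hi
    exact fun x => ⟨0, Subsingleton.elim _ _⟩)

lemma finite_miss (hM : KnownFacts M) (i : ℤ) (X : Sch k) (hX : IsSmoothProjective X) :
    Module.Finite K (M.miss.obj (M.motive i X)) := by
  have h1 := hM.finite X hX i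
  exact Module.Finite.of_surjective (cokernel.π (M.cl.app (M.motive i X))).hom
    ((ModuleCat.epi_iff_surjective _).mp inferInstance)

lemma chi_all (hM : KnownFacts M) (i : ℤ) (N : ℕ) (X : Sch k) (hX : FT True X)
    (hN : topologicalKrullDim X.left ≤ N) : HasChi M.miss M.D i X :=
  one_existsF hM.weight (fun Y hY _ => finite_miss hM i Y hY) X hX hN

lemma bound_iff (hM : KnownFacts M) {R : ℤ → ℤ} {i : ℤ} {r : ℕ} :
    DegBound M R i r ↔ Bound M.miss M.D R i r := by
  refine forall₂_congr fun ε hε => exists_congr fun B => forall_congr' fun G => ?_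
  exact ⟨fun h => ⟨has_chi hM.weight (fun Y hY => finite_miss hM i Y hY) G, h⟩, fun h => h.2⟩

lemma growth_iff (hM : KnownFacts M) {R : ℤ → ℤ} {i : ℤ} :
    SlowGrowth M R i ↔ Growth M.miss M.D R i :=
  ⟨fun h => ⟨fun r G => has_chi hM.weight (fun Y hY => finite_miss hM i Y hY) G, h⟩,
    fun h => h.2⟩

/-- **The growth of the missing crystalline Tate classes of hypersurface complements.** See the
explanations above. -/
theorem result {k : Type} [Field k] [Finite k] {K : Type} [Field K] (M : Mot.{v, u} k K)
    (hM : KnownFacts M) :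
    -- (1) the Euler characteristics are defined
    (∀ (i : ℤ) (N : ℕ) (X : Sch k), FT True X → topologicalKrullDim X.left ≤ N →
      HasChi M.miss M.D i X) ∧
    -- (2) dimension at most `d`: bounds `o(deg / log deg)`
    (∀ (i : ℤ) (d : ℕ), (∀ X : Sch k, IsSmoothProjective X → topologicalKrullDim X.left ≤ d →
        Conj M i X) ↔ DegBound M abs i (d + 1)) ∧
    -- (3) one-sided bounds
    (∀ (i : ℤ) (d : ℕ) (R : ℤ → ℤ), (R = id ∨ R = Neg.neg) → DegBound M R i (d + 1) →
      DegBound M R i (d + 2) → ∀ X : Sch k, IsSmoothProjective X →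
        topologicalKrullDim X.left ≤ d → Conj M i X) ∧
    -- (4) all dimensions: growth slower than `q ^ r`
    ∀ (I : ℤ) (R : ℤ → ℤ), (R = id ∨ R = Neg.neg) →
      ((∀ i ≤ I, ∀ X : Sch k, IsSmoothProjective X → Conj M i X) ↔
        ∀ i ≤ I, SlowGrowth M R i) := by
  have hK := known hM
  refine ⟨fun i N X hX hN => chi_all hM i N X hX hN,
    fun i d => ⟨fun h => ?_, fun h X hX hd => ?_⟩, fun i d R hR h1 h2 X hX hd => ?_,
    fun I R hR => ⟨fun h i hi => ?_, fun h i hi X hX => ?_⟩⟩
  · exact (bound_iff hM).mpr
      (Pool.Agent.Helper24.KG.to_bound hK (fun X hX hd => (conj_iff i X).mp (h X hX hd)) abs_zero)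
  · exact (conj_iff i X).mpr (from_abs hK ((bound_iff hM).mp h) X hX hd)
  · exact (conj_iff i X).mpr (from_one hK hR ((bound_iff hM).mp h1) ((bound_iff hM).mp h2) X hX hd)
  · refine (growth_iff hM).mpr (to_growth hK (fun X hX => (conj_iff i X).mp (h i hi X hX)) ?_)
    rcases hR with rfl | rfl
    · rfl
    · exact neg_zero
  · exact (conj_iff i X).mpr
      (from_growth hK hR (fun i hi => (growth_iff hM).mp (h i hi)) i hi X hX)

end Pool.Agent.Results.MP_60ec62_ag.GrowthOfMissingClasses
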